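import Mathlib

namespace Pool.Agent.Results.MP_a5fc84_co.Yes

open Set Pointwise

variable {F : Type*} [Field F]

/-- approximate subfield -/
structure ApproxSubfield (X : Set F) : Prop where
  zero : (0 : F) ∈ X
  neg : X = -X
  one : (1 : F) ∈ X
  inv : X \ {0} = (X \ {0})⁻¹
  cov : ∃ E : Set F, E.Finite ∧ X * X + X ⊆ (E * X) ∩ (E + X)

/-- sums of at most `n` terms, each a product of at most `n` elements of `X` -/
def S (n : ℕ) (X : Set F) : Set F :=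
  {s | ∃ l : List (List F), l.length ≤ n ∧ (∀ p ∈ l, p.length ≤ n ∧ ∀ x ∈ p, x ∈ X) ∧
    (l.map List.prod).sum = s}

def Alg (n : ℕ) (X : Set F) : Set F := {z | ∃ a ∈ S n X, ∃ b ∈ S n X, b ≠ 0 ∧ z = a / b}

def Cov (X Y : Set F) : Prop := ∃ T : Set F, T.Finite ∧ Y ⊆ T + X

variable {X : Set F}

theorem Cov.mono {Y Z : Set F} (h : Cov X Z) (s : Y ⊆ Z) : Cov X Y :=
  h.imp fun _ h => ⟨h.1, s.trans h.2⟩

theorem cov_biUnion {T : Set F} (hT : T.Finite) {Y : F → Set F} (h : ∀ t ∈ T, Cov X (Y t)) :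
    Cov X (⋃ t ∈ T, Y t) := by
  choose! U h1 h2 using h
  exact ⟨⋃ t ∈ T, U t, hT.biUnion h1, iUnion₂_subset fun t ht =>
    (h2 t ht).trans (add_subset_add_right (subset_biUnion_of_mem (u := U) ht))⟩

theorem covXX (hX : ApproxSubfield X) : Cov X (X * X + X) :=
  hX.cov.imp fun _ h => ⟨h.1, h.2.trans inter_subset_right⟩

theorem Cov.add (hX : ApproxSubfield X) {Y Z : Set F} (h : Cov X Y) (h' : Cov X Z) :
    Cov X (Y + Z) := by
  obtain ⟨T, a, b⟩ := h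
  obtain ⟨T', a', b'⟩ := h'
  obtain ⟨E, c, d⟩ := covXX hX
  refine ⟨T + T' + E, (a.add a').add c, ?_⟩
  rintro _ ⟨y, hy, z, hz, rfl⟩
  obtain ⟨t, ht, x, hx, rfl⟩ := b hy
  obtain ⟨t', ht', x', hx', rfl⟩ := b' hz
  obtain ⟨e, he, w, hw, h⟩ := d ⟨_, ⟨1, hX.one, x, hx, rfl⟩, x', hx', rfl⟩
  refine ⟨_, ⟨_, ⟨t, ht, t', ht', rfl⟩, e, he, rfl⟩, w, hw, ?_⟩
  simp only at h ⊢
  linear_combination h

theorem cov_fin (hX : ApproxSubfield X) {Y : Set F} (h : Y.Finite) : Cov X Y :=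
  ⟨Y, h, fun y hy => ⟨y, hy, 0, hX.zero, add_zero _⟩⟩

theorem lift (hX : ApproxSubfield X) {r : F} (h : Cov X ({r} * X)) {Y : Set F} (hY : Cov X Y) :
    Cov X ({r} * Y) := by
  obtain ⟨T, a, b⟩ := hY
  refine ((cov_fin hX ((finite_singleton r).mul a)).add hX h).mono ?_
  rintro _ ⟨_, rfl, y, hy, rfl⟩
  obtain ⟨t, ht, x, hx, rfl⟩ := b hy
  exact ⟨_, ⟨_, rfl, t, ht, rfl⟩, _, ⟨_, rfl, x, hx, rfl⟩, (mul_add _ _ _).symm⟩

theorem negm (hX : ApproxSubfield X) {x : F} (h : x ∈ X) : -x ∈ X := by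
  rw [hX.neg]; simpa using h

theorem invm (hX : ApproxSubfield X) {x : F} (h : x ∈ X) (h0 : x ≠ 0) : x⁻¹ ∈ X := by
  have : x ∈ (X \ {0})⁻¹ := hX.inv ▸ ⟨h, h0⟩
  exact this.1

theorem good (hX : ApproxSubfield X) {r : F} (hr : r ∈ Subring.closure X) : Cov X ({r} * X) := by
  have base : ∀ x ∈ X, Cov X ({x} * X) := fun x hx => (covXX hX).mono <| by
    rintro _ ⟨_, rfl, y, hy, rfl⟩
    exact ⟨_, ⟨_, hx, y, hy, rfl⟩, 0, hX.zero, add_zero _⟩
  induction hr using Subring.closure_induction with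
  | mem x hx => exact base x hx
  | zero => exact base 0 hX.zero
  | one => exact base 1 hX.one
  | add a b _ _ ha hb =>
    refine (ha.add hX hb).mono ?_
    rintro _ ⟨_, rfl, y, hy, rfl⟩
    exact ⟨_, ⟨_, rfl, y, hy, rfl⟩, _, ⟨_, rfl, y, hy, rfl⟩, (add_mul _ _ _).symm⟩
  | neg a _ ha =>
    refine ha.mono ?_
    rintro _ ⟨_, rfl, y, hy, rfl⟩
    exact ⟨_, rfl, -y, negm hX hy, by simp⟩
  | mul a b _ _ ha hb =>
    refine (lift hX ha hb).mono ?_
    rintro _ ⟨_, rfl, y, hy, rfl⟩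
    exact ⟨_, rfl, _, ⟨_, rfl, y, hy, rfl⟩, (mul_assoc _ _ _).symm⟩

theorem Cov.mulX (hX : ApproxSubfield X) {Y : Set F} (h : Cov X Y)
    (hR : Y ⊆ Subring.closure X) : Cov X (Y * X) := by
  obtain ⟨T, a, b⟩ := h
  refine ((cov_biUnion (a.inter_of_left (Subring.closure X)) (Y := fun t => {t} * X)
    fun t ht => good hX ht.2).add hX (covXX hX)).mono ?_
  rintro _ ⟨y, hy, z, hz, rfl⟩
  obtain ⟨t, ht, x, hx, rfl⟩ := b hy
  have : t ∈ Subring.closure X := by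
    simpa using sub_mem (hR hy) (Subring.subset_closure hx)
  exact ⟨_, mem_biUnion (x := t) ⟨ht, this⟩ ⟨_, rfl, z, hz, rfl⟩, _,
    ⟨_, ⟨x, hx, z, hz, rfl⟩, 0, hX.zero, rfl⟩, by simp only; ring⟩

def Pr (n : ℕ) (X : Set F) : Set F := {s | ∃ p : List F, (p.length ≤ n ∧ ∀ x ∈ p, x ∈ X) ∧ p.prod = s}

theorem pr_sub (n : ℕ) : Pr n X ⊆ Subring.closure X := by
  rintro _ ⟨p, h, rfl⟩
  exact list_prod_mem fun x hx => Subring.subset_closure (h.2 x hx)

theorem cov_pr (hX : ApproxSubfield X) (n : ℕ) : Cov X (Pr n X) := by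
  induction n with
  | zero =>
    refine (cov_fin hX (finite_singleton 1)).mono ?_
    rintro _ ⟨p, h, rfl⟩
    obtain rfl : p = [] := by simpa using h.1
    rfl
  | succ n ih =>
    refine (ih.mulX hX (pr_sub n)).mono ?_
    rintro _ ⟨_ | ⟨a, p⟩, h, rfl⟩
    · exact ⟨1, ⟨[], by simp, rfl⟩, 1, hX.one, by simp⟩
    · exact ⟨_, ⟨p, ⟨by simpa using h.1, fun x hx => h.2 x (by simp [hx])⟩, rfl⟩, a,
        h.2 a (by simp), by simp [mul_comm]⟩

theorem s_sub (n : ℕ) : S n X ⊆ Subring.closure X := by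
  rintro _ ⟨l, -, h, rfl⟩
  refine list_sum_mem fun x hx => ?_
  obtain ⟨p, hp, rfl⟩ := List.mem_map.1 hx
  exact pr_sub n ⟨p, h p hp, rfl⟩

theorem cov_s (hX : ApproxSubfield X) (n : ℕ) : Cov X (S n X) := by
  suffices h : ∀ m, Cov X {s | ∃ l : List (List F), l.length ≤ m ∧
      (∀ p ∈ l, p.length ≤ n ∧ ∀ x ∈ p, x ∈ X) ∧ (l.map List.prod).sum = s} from h n
  intro m
  induction m with
  | zero =>
    refine (cov_fin hX (finite_singleton 0)).mono ?_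
    rintro _ ⟨l, h, -, rfl⟩
    obtain rfl : l = [] := by simpa using h
    rfl
  | succ m ih =>
    refine (((cov_pr hX n).add hX (cov_fin hX ((finite_singleton 0).insert (-1)))).add
      hX ih).mono ?_
    rintro _ ⟨_ | ⟨p, l⟩, h, h', rfl⟩
    · exact ⟨_, ⟨1, ⟨[], by simp, rfl⟩, -1, by simp, rfl⟩, 0, ⟨[], by simp⟩, by simp⟩
    · exact ⟨_, ⟨_, ⟨p, h' p (by simp), rfl⟩, 0, by simp, rfl⟩, _,
        ⟨l, by simpa using h, fun q hq => h' q (by simp [hq]), rfl⟩, by simp⟩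

/-- pigeonhole -/
theorem pig (hX : ApproxSubfield X) (hi : X.Infinite) {E : Set F} (hE : X * X + X ⊆ E * X)
    {Y : Set F} (h : Cov X (Y * X)) : ∃ D : Set F, D.Finite ∧ D ⊆ Subring.closure X ∧
      ∀ b ∈ Y, b ≠ 0 → ∃ d ∈ D, ∃ e ∈ E, ∃ g ∈ X, e ≠ 0 ∧ g ≠ 0 ∧ b * d = e * g := by
  classical
  obtain ⟨T, a, c⟩ := h
  obtain ⟨D, hD, hc⟩ := hi.exists_subset_card_eq (a.toFinset.card + 1)
  refine ⟨(D : Set F) - D, D.finite_toSet.sub D.finite_toSet, ?_, fun b hb b0 => ?_⟩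
  · rintro _ ⟨x, hx, y, hy, rfl⟩
    exact sub_mem (Subring.subset_closure (hD hx)) (Subring.subset_closure (hD hy))
  have : ∀ y ∈ D, ∃ t ∈ T, ∃ x ∈ X, t + x = b * y := fun y hy => c ⟨b, hb, y, hD hy, rfl⟩
  choose! t ht x hx e using this
  obtain ⟨y, hy, z, hz, n, h⟩ := Finset.exists_ne_map_eq_of_card_lt_of_maps_to
    (s := D) (t := a.toFinset) (by omega) (f := t) fun y hy => by simpa using ht y hy
  obtain ⟨e', he', g, hg, k⟩ :=
    hE ⟨_, ⟨1, hX.one, x y, hx y hy, rfl⟩, _, negm hX (hx z hz), rfl⟩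
  simp only at k
  have k' : b * (y - z) = e' * g := by linear_combination e z hz - e y hy + h - k
  have : e' * g ≠ 0 := k' ▸ mul_ne_zero b0 (sub_ne_zero.2 n)
  exact ⟨_, ⟨y, hy, z, hz, rfl⟩, e', he', g, hg, left_ne_zero_of_mul this,
    right_ne_zero_of_mul this, k'⟩

theorem inv_cl (hX : ApproxSubfield X) (hi : X.Infinite) {c : F} (hc : c ∈ Subring.closure X) :
    c⁻¹ ∈ Subring.closure X := by
  classical
  obtain ⟨E, hE, hE'⟩ := hX.cov
  let E' := hE.toFinset.filter fun e => e ∈ Subring.closure X ∧ e ≠ 0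
  have hp : ∏ e ∈ E', e ∈ Subring.closure X :=
    prod_mem fun e he => (Finset.mem_filter.1 he).2.1
  have h0 : ∏ e ∈ E', e ≠ 0 := Finset.prod_ne_zero_iff.2 fun e he => (Finset.mem_filter.1 he).2.2
  have key : ∀ c ∈ Subring.closure X, c ≠ 0 → (∏ e ∈ E', e) / c ∈ Subring.closure X := by
    intro c hc c0
    obtain ⟨D, -, hD, h⟩ := pig hX hi (hE'.trans inter_subset_left) (good hX hc)
    obtain ⟨d, hd, e, he, g, hg, e0, g0, k⟩ := h c rfl c0
    have h1 : d * g⁻¹ ∈ Subring.closure X :=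
      mul_mem (hD hd) (Subring.subset_closure (invm hX hg g0))
    have h2 : e = c * (d * g⁻¹) := by field_simp; exact k.symm
    have h3 : e ∈ E' := Finset.mem_filter.2 ⟨by simpa using he, h2 ▸ mul_mem hc h1, e0⟩
    have : (∏ e ∈ E', e) / c = (d * g⁻¹) * ∏ e ∈ E'.erase e, e := by
      rw [← Finset.mul_prod_erase E' (fun e => e) h3, div_eq_iff c0]
      linear_combination (∏ e ∈ E'.erase e, e) * h2
    rw [this]
    exact mul_mem h1 (prod_mem fun e he => (Finset.mem_filter.1 (Finset.mem_of_mem_erase he)).2.1)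
  by_cases c0 : c = 0
  · simp [c0]
  convert mul_mem (key _ (mul_mem hp hp) (mul_ne_zero h0 h0)) (key c hc c0) using 1
  field_simp

theorem result {F : Type*} [Field F] (X : Set F) (hX : ApproxSubfield X) (n : ℕ) :
    ∃ T : Set F, T.Finite ∧ Alg n X ⊆ T + X := by
  by_cases hi : X.Infinite
  · obtain ⟨E, hE, hE'⟩ := hX.cov
    have hSX := (cov_s hX n).mulX hX (s_sub n)
    obtain ⟨D, fD, hD, h⟩ := pig hX hi (hE'.trans inter_subset_left) hSX
    refine (cov_biUnion ((fD.div hE).inter_of_left (Subring.closure X))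
      (Y := fun t => {t} * (S n X * X)) fun t ht => lift hX (good hX ht.2) hSX).mono ?_
    rintro _ ⟨a, ha, b, hb, b0, rfl⟩
    obtain ⟨d, hd, e, he, g, hg, e0, g0, k⟩ := h b hb b0
    have h1 : d / e = g * b⁻¹ := by field_simp; linear_combination k
    refine mem_biUnion (x := d / e) ⟨⟨d, hd, e, he, rfl⟩, ?_⟩
      ⟨_, rfl, _, ⟨a, ha, g⁻¹, invm hX hg g0, rfl⟩, ?_⟩
    · exact h1 ▸ mul_mem (Subring.subset_closure hg) (inv_cl hX hi (s_sub n hb))
    · simp only [h1]; field_simp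
  · obtain ⟨T, a, b⟩ := cov_s hX n
    have := (a.add (not_infinite.1 hi)).subset b
    refine cov_fin hX ((this.div this).subset ?_)
    rintro _ ⟨a, ha, b, hb, -, rfl⟩
    exact ⟨a, ha, b, hb, rfl⟩

end Pool.Agent.Results.MP_a5fc84_co.Yes
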